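import Pool.Agent.H68.T.Okp
import Pool.Agent.H68.B.Mat
import Pool.Agent.H68.G.Fin

/-!
# The good sets and the matrix
-/

set_option autoImplicit false
set_option linter.unusedVariables false

open scoped Classical

namespace Pool.Agent.H68.T

open Finset
open Pool.Agent.H68.G (Par lab Sp In Ok Cl)
open Pool.Agent.H68.A (Spl Sil rt mat)

theorem nr_eq (p q : ℕ) : Pool.Agent.Y703.CQ.nr p q = Pool.Agent.H68.A.nr p (q : ℤ) := by
  unfold Pool.Agent.Y703.CQ.nr Pool.Agent.H68.A.nr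
  push_cast
  rfl

theorem nr_self (p : ℕ) : Pool.Agent.Y703.CQ.nr p p = 0 := by
  unfold Pool.Agent.Y703.CQ.nr
  rw [if_pos]
  rw [ZMod.natCast_self]
  exact IsSquare.zero

/-- a set is good if and only if the matrix has the largest possible rank -/
theorem gd_iff {a b : ℤ} (hb : b ≠ 0) (hc : a ^ 2 - 4 * b ≠ 0) (D₀ : ℕ) (P Q : Finset ℕ)
    (hP : ∀ p ∈ P, Spl a b p) (hQ : ∀ q ∈ Q, Sil a b q) :
    Pool.Agent.H68.G.Gd (pp a b D₀) (rt a b) (P ∪ Q) ↔ (mat a b P Q).rank = P.card := by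
  have hdis : Disjoint P Q := (Pool.Agent.H68.A.dt hb hc hP hQ).1.disj
  have hlP : ∀ p ∈ P, lab (pp a b D₀) p = 1 := fun p hp => (lab_iff' hb hc (hP p hp).1).2 (hP p hp)
  have hlQ : ∀ q ∈ Q, lab (pp a b D₀) q ≠ 1 := fun q hq h =>
    not_both ((lab_iff' hb hc (hQ q hq).1).1 h) (hQ q hq)
  -- the equation of a function and the equation of its support
  have key : ∀ (x : ℕ → ZMod 2) (V : Finset ℕ), V ⊆ P → (∀ p ∈ P, x p = if p ∈ V then 1 else 0) →
      ∀ p ∈ P, ∑ q ∈ P ∪ Q, Pool.Agent.Y703.CQ.nr p q *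
        (Pool.Agent.H68.G.cu (pp a b D₀) x q + x p) + rt a b p * x p =
      ∑ r ∈ V.erase p, Pool.Agent.H68.A.nr p (r : ℤ) +
        (if p ∈ V then Pool.Agent.H68.A.dg P Q (rt a b) p else 0) := by
    intro x V hV hx p hp
    have e1 : ∑ q ∈ P ∪ Q, Pool.Agent.Y703.CQ.nr p q *
        (Pool.Agent.H68.G.cu (pp a b D₀) x q + x p) =
        ∑ q ∈ P ∪ Q, Pool.Agent.Y703.CQ.nr p q * Pool.Agent.H68.G.cu (pp a b D₀) x q +
        (∑ q ∈ P ∪ Q, Pool.Agent.Y703.CQ.nr p q) * x p := by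
      rw [sum_mul, ← sum_add_distrib]
      exact sum_congr rfl fun q _ => by ring
    have e2 : ∑ q ∈ P ∪ Q, Pool.Agent.Y703.CQ.nr p q * Pool.Agent.H68.G.cu (pp a b D₀) x q =
        ∑ r ∈ V.erase p, Pool.Agent.H68.A.nr p (r : ℤ) := by
      rw [sum_union hdis]
      have e3 : ∑ q ∈ Q, Pool.Agent.Y703.CQ.nr p q * Pool.Agent.H68.G.cu (pp a b D₀) x q = 0 := by
        refine sum_eq_zero fun q hq => ?_
        unfold Pool.Agent.H68.G.cu
        rw [if_neg (hlQ q hq), mul_zero]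
      rw [e3, add_zero]
      have e4 : ∑ q ∈ P, Pool.Agent.Y703.CQ.nr p q * Pool.Agent.H68.G.cu (pp a b D₀) x q =
          ∑ q ∈ V, Pool.Agent.Y703.CQ.nr p q := by
        rw [← sum_subset hV (f := fun q => Pool.Agent.Y703.CQ.nr p q *
          Pool.Agent.H68.G.cu (pp a b D₀) x q)]
        · refine sum_congr rfl fun q hq => ?_
          unfold Pool.Agent.H68.G.cu
          rw [if_pos (hlP q (hV hq)), hx q (hV hq), if_pos hq, mul_one]
        · intro q hq hqV
          unfold Pool.Agent.H68.G.cu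
          rw [if_pos (hlP q hq), hx q hq, if_neg hqV, mul_zero]
      rw [e4]
      by_cases hpV : p ∈ V
      · rw [← add_sum_erase V _ hpV, nr_self, zero_add]
        exact sum_congr rfl fun q _ => nr_eq p q
      · rw [erase_eq_of_notMem hpV]
        exact sum_congr rfl fun q _ => nr_eq p q
    rw [e1, e2, hx p hp, add_assoc]
    congr 1
    by_cases hpV : p ∈ V
    · rw [if_pos hpV, if_pos hpV, mul_one, mul_one]
      unfold Pool.Agent.H68.A.dg
      rw [← add_sum_erase (P ∪ Q) _ (mem_union_left Q hp), nr_self, zero_add, add_comm]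
      congr 1
      exact sum_congr rfl fun q _ => nr_eq p q
    · rw [if_neg hpV, if_neg hpV, mul_zero, mul_zero, add_zero]
  have hcard := Pool.Agent.H68.A.card_Gd a b P Q
  have hrk : (mat a b P Q).rank ≤ P.card := by
    have := Matrix.rank_le_card_width (mat a b P Q)
    rwa [Fintype.card_coe] at this
  have h0 : ∅ ∈ P.powerset.filter (Pool.Agent.H68.A.Gd P Q (rt a b)) := by
    rw [mem_filter]
    refine ⟨empty_mem_powerset P, fun p hp => ?_⟩
    simp
  have hz : ∀ y : ZMod 2, y = 0 ∨ y = 1 := by decide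
  constructor
  · intro h
    have h1 : P.powerset.filter (Pool.Agent.H68.A.Gd P Q (rt a b)) = {∅} := by
      ext V
      rw [mem_singleton]
      constructor
      · intro hV
        rw [mem_filter, mem_powerset] at hV
        have hS : Pool.Agent.H68.G.Sol (pp a b D₀) (rt a b) (P ∪ Q)
            (fun p => if p ∈ V then 1 else 0) := by
          intro p hp hpl
          have hpP : p ∈ P := by
            rcases mem_union.1 hp with h' | h'
            · exact h'
            · exact absurd hpl (hlQ p h')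
          rw [key (fun p => if p ∈ V then 1 else 0) V hV.1 (fun _ _ => rfl) p hpP]
          exact hV.2 p hpP
        rw [eq_empty_iff_forall_notMem]
        intro p hpV
        have h2 := h _ hS p (mem_union_left Q (hV.1 hpV)) (hlP p (hV.1 hpV))
        simp only [if_pos hpV] at h2
        exact one_ne_zero h2
      · rintro rfl
        exact h0
    rw [h1, card_singleton] at hcard
    have h2 : 2 ^ 0 = 2 ^ (P.card - (mat a b P Q).rank) := by rw [← hcard, pow_zero]
    have h3 := Nat.pow_right_injective le_rfl h2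
    omega
  · intro h x hx p hp hpl
    rw [h, Nat.sub_self, pow_zero, card_eq_one] at hcard
    obtain ⟨V0, hV0⟩ := hcard
    obtain ⟨V, hVd⟩ : ∃ V, V = P.filter fun p => x p = 1 := ⟨_, rfl⟩
    have hVP : V ⊆ P := by rw [hVd]; exact filter_subset _ _
    have hxV : ∀ p ∈ P, x p = if p ∈ V then 1 else 0 := by
      intro p hp
      have hm : p ∈ V ↔ x p = 1 := by
        rw [hVd, mem_filter]
        exact ⟨fun h => h.2, fun h => ⟨hp, h⟩⟩
      rcases hz (x p) with h' | h'
      · rw [if_neg (fun h'' => by rw [hm.1 h''] at h'; exact absurd h' (by decide)), h']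
      · rw [if_pos (hm.2 h'), h']
    have hVg : V ∈ P.powerset.filter (Pool.Agent.H68.A.Gd P Q (rt a b)) := by
      rw [mem_filter, mem_powerset]
      refine ⟨hVP, fun p hp => ?_⟩
      rw [← key x V hVP hxV p hp]
      exact hx p (mem_union_left Q hp) (hlP p hp)
    rw [hV0, mem_singleton] at hVg h0
    have hVe : V = ∅ := by rw [hVg, h0]
    have hpP : p ∈ P := by
      rcases mem_union.1 hp with h' | h'
      · exact h'
      · exact absurd hpl (hlQ p h')
    rw [hxV p hpP, hVe]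
    simp

/-- the class of the prime factors -/
theorem cl_iff {a b : ℤ} (hb : b ≠ 0) (hc : a ^ 2 - 4 * b ≠ 0) {D₀ D : ℕ} (hD : Squarefree D) :
    Cl (pp a b D₀) D.primeFactors ↔ (∀ p : ℕ, p.Prime → p ∣ D → Spl a b p ∨ Sil a b p) ∧
      Tri a b (D * D₀) := by
  have hD0 : D ≠ 0 := hD.ne_zero
  unfold Pool.Agent.H68.G.Cl
  rw [Nat.prod_primeFactors_of_squarefree hD]
  refine and_congr ?_ (mem_TT hb hc)
  constructor
  · intro h p hp hpD
    rcases h p (Nat.mem_primeFactors.2 ⟨hp, hpD, hD0⟩) with h | h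
    · exact Or.inl ((Sp_iff hb hc).1 h)
    · exact Or.inr ((In_iff hb hc).1 h)
  · intro h p hp
    rw [Nat.mem_primeFactors] at hp
    rcases h p hp.1 hp.2.1 with h | h
    · exact Or.inl ((Sp_iff hb hc).2 h)
    · exact Or.inr ((In_iff hb hc).2 h)

theorem Tri_iff {a b : ℤ} (hb : b ≠ 0) (hc : a ^ 2 - 4 * b ≠ 0) {n : ℕ}
    (hn : ∀ l : ℕ, l.Prime → (l : ℤ) ∣ b * (a ^ 2 - 4 * b) → ¬ l ∣ n) : Tri a b n ↔
    n % 8 = 1 ∧ ∀ l : ℕ, l.Prime → l ≠ 2 → (l : ℤ) ∣ b * (a ^ 2 - 4 * b) → IsSquare (n : ZMod l) := by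
  unfold Tri
  refine and_congr Iff.rfl ?_
  constructor
  · intro h l hl hl2 hln
    have h1 := h l ((mem_LL hb hc).2 ⟨hl, hl2, hln⟩)
    have h2 : ¬ (l : ℤ) ∣ (n : ℤ) := by
      rw [Int.natCast_dvd_natCast]
      exact hn l hl hln
    have := (jac_sq hl h2).1 h1
    exact_mod_cast this
  · intro h l hl
    obtain ⟨h1, h2, h3⟩ := (mem_LL hb hc).1 hl
    have h4 : ¬ (l : ℤ) ∣ (n : ℤ) := by
      rw [Int.natCast_dvd_natCast]
      exact hn l h1 h3
    rw [jac_sq h1 h4]
    exact_mod_cast h l h1 h2 h3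

/-- the size of the class -/
theorem size {a b : ℤ} (hb : b ≠ 0) (hc : a ^ 2 - 4 * b ≠ 0) (hne : (BB a b).Nonempty)
    (R : Finset ℕ) (hR : ∀ q ∈ R, Sil a b q) : ∃ c : ℝ, 0 < c ∧ ∀ᶠ X : ℕ in Filter.atTop,
    c * X * (Real.log X) ^ (-(3 / 4) : ℝ) ≤
      (((Icc 1 X).filter fun D => Squarefree D ∧
        Cl (pp a b (∏ q ∈ R, q)) D.primeFactors).card : ℝ) := by
  have hok := okp hb hc hne R hR
  obtain ⟨c, X₀, hc0, h⟩ := Pool.Agent.H68.G.LOW.t_LOW Pool.Agent.H68.G.MER.t_MER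
    Pool.Agent.H68.G.CHE.t_CHE _ hok
  refine ⟨c, hc0, ?_⟩
  have hlog : Filter.Tendsto (fun X : ℕ => Real.log (X : ℝ)) Filter.atTop Filter.atTop :=
    Real.tendsto_log_atTop.comp tendsto_natCast_atTop_atTop
  filter_upwards [Filter.eventually_ge_atTop X₀, hlog.eventually_ge_atTop 1] with X hX hX1
  have h1 := h X hX
  have e := Pool.Agent.H68.G.NS.card_eq (pp a b (∏ q ∈ R, q)) X (fun _ => True)
  rw [Finset.filter_true] at e
  simp only [and_true] at e
  rw [e]
  refine le_trans ?_ h1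
  have hdB : (1 / 4 : ℝ) ≤ Pool.Agent.H68.G.dB (pp a b (∏ q ∈ R, q)) := by
    unfold Pool.Agent.H68.G.dB
    rw [div_le_div_iff₀ (by norm_num) hok.tot]
    have h2 : ((8 * nn a b).totient : ℝ) ≤ 4 * ((BB a b).card : ℝ) := by
      exact_mod_cast card_BB hb hc hne
    have h3 : (Nat.totient (pp a b (∏ q ∈ R, q)).M : ℝ) = ((8 * nn a b).totient : ℝ) := rfl
    have h4 : ((pp a b (∏ q ∈ R, q)).B.card : ℝ) = ((BB a b).card : ℝ) := rfl
    rw [h3, h4]
    linarith
  apply mul_le_mul_of_nonneg_left _ (by positivity)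
  apply Real.rpow_le_rpow_of_exponent_le hX1
  have := hok.dA_pos
  unfold Pool.Agent.H68.G.dl
  linarith

end Pool.Agent.H68.T
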