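import Pool.Agent.H68.T.Par

/-!
# The hypotheses on the parameters
-/

set_option autoImplicit false
set_option linter.unusedVariables false

open scoped Classical

namespace Pool.Agent.H68.T

open Finset
open Pool.Agent.H68.G (Par lab Sp In Ok Cl)
open Pool.Agent.H68.A (Spl Sil)

/-- a count of the fibers of a function on the coprime residues -/
theorem fiber_le (M : ℕ) (hM : 1 < M) {κ : Type} [Fintype κ] [DecidableEq κ] (F : ℕ → κ)
    (A : Finset ℕ) (hA : ∀ r s t, r < M → Nat.Coprime r M → s < M → Nat.Coprime s M → F r = F s →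
      t < M → Nat.Coprime t M → (r * t) % M = 1 → (s * t) % M ∈ A) :
    Nat.totient M ≤ Fintype.card κ * A.card := by
  have h1 : ((range M).filter (fun r => Nat.Coprime M r)).card ≤
      ∑ k : κ, (((range M).filter (fun r => Nat.Coprime M r)).filter fun r => F r = k).card := by
    rw [← card_eq_sum_card_fiberwise (f := F) (t := univ) (fun _ _ => mem_univ _)]
  rw [Nat.totient_eq_card_coprime]
  refine h1.trans ?_
  have h2 : ∀ k : κ, (((range M).filter (fun r => Nat.Coprime M r)).filter fun r => F r = k).card ≤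
      A.card := by
    intro k
    rcases (((range M).filter (fun r => Nat.Coprime M r)).filter fun r => F r = k).eq_empty_or_nonempty
      with h | ⟨r, hr⟩
    · rw [h, card_empty]; exact Nat.zero_le _
    · rw [mem_filter, mem_filter, mem_range] at hr
      obtain ⟨⟨hr1, hr2⟩, hr3⟩ := hr
      obtain ⟨t, ht1, ht2⟩ := Nat.exists_mul_mod_eq_one_of_coprime hr2.symm hM
      have ht3 : Nat.Coprime t M := by
        have h3 : Nat.Coprime (r * t) M := by
          have : r * t ≡ 1 [MOD M] := by
            unfold Nat.ModEq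
            rw [ht2, Nat.mod_eq_of_lt hM]
          unfold Nat.Coprime
          rw [this.gcd_eq, Nat.gcd_one_left]
        exact Nat.Coprime.coprime_mul_left h3
      refine card_le_card_of_injOn (fun s => (s * t) % M) ?_ ?_
      · intro s hs
        rw [mem_coe, mem_filter, mem_filter, mem_range] at hs
        exact hA r s t hr1 hr2.symm hs.1.1 hs.1.2.symm (by rw [hr3, hs.2]) ht1 ht3 ht2
      · intro s hs s' hs' h
        rw [mem_coe, mem_filter, mem_filter, mem_range] at hs hs'
        have h3 : s * t ≡ s' * t [MOD M] := h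
        have h4 : s ≡ s' [MOD M] := Nat.ModEq.cancel_right_of_coprime (by
          rw [Nat.gcd_comm]; exact ht3) h3
        exact Nat.ModEq.eq_of_lt_of_lt h4 hs.1.1 hs'.1.1
  calc ∑ k : κ, (((range M).filter (fun r => Nat.Coprime M r)).filter fun r => F r = k).card ≤
      ∑ k : κ, A.card := sum_le_sum fun k _ => h2 k
    _ = Fintype.card κ * A.card := by rw [sum_const, smul_eq_mul, card_univ]

section
variable {a b : ℤ}

theorem inv_mod {M r t n : ℕ} (h : (r * t) % M = 1) (hM : 1 < M) (hn : n ∣ M) :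
    r * t ≡ 1 [MOD n] := by
  have : r * t ≡ 1 [MOD M] := by
    unfold Nat.ModEq
    rw [h, Nat.mod_eq_of_lt hM]
  exact this.of_dvd hn

theorem card_AA (hb : b ≠ 0) (hc : a ^ 2 - 4 * b ≠ 0) :
    Nat.totient (8 * nn a b) ≤ 2 ^ ((LL a b).card + 2) * (AA a b).card := by
  have hn := nn_pos hb hc
  have hM : 1 < 8 * nn a b := by omega
  have h1 := fiber_le (8 * nn a b) hM (κ := Fin 4 × (LL a b → Bool))
    (fun r => (⟨r % 8 / 2, by omega⟩, fun l => decide (jacobiSym (r : ℤ) l = 1))) (AA a b) ?_
  · rw [Fintype.card_prod, Fintype.card_fin, Fintype.card_fun, Fintype.card_bool,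
      Fintype.card_coe] at h1
    calc Nat.totient (8 * nn a b) ≤ 4 * 2 ^ (LL a b).card * (AA a b).card := h1
      _ = _ := by ring
  · intro r s t hr hrc hs hsc hF ht htc hrt
    have hso := odd_of_coprime (dvd_mul_right 8 _) hsc
    have hro := odd_of_coprime (dvd_mul_right 8 _) hrc
    have h8 : r % 8 / 2 = s % 8 / 2 := by
      have := congrArg Prod.fst hF
      simpa using this
    have h8' : r % 8 = s % 8 := by
      have h1 := Nat.odd_iff.1 hro
      have h2 := Nat.odd_iff.1 hso
      omega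
    unfold AA
    rw [mem_filter, mem_range, mod_cop]
    refine ⟨Nat.mod_lt _ (by omega), Nat.Coprime.mul_left hsc htc, ?_, ?_⟩
    · rw [Nat.mod_mod_of_dvd _ (dvd_mul_right 8 _)]
      have h2 := inv_mod hrt hM (dvd_mul_right 8 _)
      unfold Nat.ModEq at h2
      rw [Nat.mul_mod] at h2 ⊢
      rw [← h8']
      exact h2
    · intro l hl
      have hld : l ∣ 8 * nn a b := (Nat.dvd_of_mem_primeFactors (mem_of_mem_erase hl)).mul_left _
      have h2 : jacobiSym (r : ℤ) l = 1 ↔ jacobiSym (s : ℤ) l = 1 := by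
        have := congrFun (congrArg Prod.snd hF) ⟨l, hl⟩
        simpa using this
      have hgr : Int.gcd (r : ℤ) l = 1 := by
        rw [Int.gcd_natCast_natCast]; exact Nat.Coprime.coprime_dvd_right hld hrc
      have hgs : Int.gcd (s : ℤ) l = 1 := by
        rw [Int.gcd_natCast_natCast]; exact Nat.Coprime.coprime_dvd_right hld hsc
      have h3 : jacobiSym (r : ℤ) l = jacobiSym (s : ℤ) l := by
        rcases jacobiSym.eq_one_or_neg_one hgr with h | h
        · rw [h, h2.1 h]
        · rcases jacobiSym.eq_one_or_neg_one hgs with h' | h'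
          · rw [h2.2 h', h']
          · rw [h, h']
      have h4 : jacobiSym ((r * t : ℕ) : ℤ) l = 1 := by
        have h5 := inv_mod hrt hM hld
        have h6 : jacobiSym ((r * t : ℕ) : ℤ) l = jacobiSym ((1 : ℕ) : ℤ) l :=
          jacobiSym.mod_left' ((Int.natCast_modEq_iff).2 h5)
        rw [h6, Nat.cast_one, jacobiSym.one_left]
      have h5 : jacobiSym (((s * t) % (8 * nn a b) : ℕ) : ℤ) l = jacobiSym ((s * t : ℕ) : ℤ) l :=
        jacobiSym.mod_left' ((Int.natCast_modEq_iff).2 ((Nat.mod_modEq _ _).of_dvd hld))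
      rw [h5]
      push_cast at h4 ⊢
      rw [jacobiSym.mul_left] at h4 ⊢
      rw [← h3]
      exact h4

theorem card_BB (hb : b ≠ 0) (hc : a ^ 2 - 4 * b ≠ 0) (hne : (BB a b).Nonempty) :
    Nat.totient (8 * nn a b) ≤ 4 * (BB a b).card := by
  have hn := nn_pos hb hc
  have hM : 1 < 8 * nn a b := by omega
  obtain ⟨g, hg⟩ := hne
  unfold BB at hg
  rw [mem_filter, mem_range] at hg
  obtain ⟨hg1, hg2, hg3, hg4⟩ := hg
  have hgo := odd_of_coprime (dvd_mul_right 8 _) hg2
  have hgz : NeZero g := ⟨by rintro rfl; exact absurd hgo (by decide)⟩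
  obtain ⟨K, hK⟩ : ∃ K, K = (range (8 * nn a b)).filter fun r =>
    Nat.Coprime r (8 * nn a b) ∧ jacobiSym b r = 1 ∧ jacobiSym (a ^ 2 - 4 * b) r = 1 := ⟨_, rfl⟩
  have h1 := fiber_le (8 * nn a b) hM (κ := Bool × Bool)
    (fun r => (decide (jacobiSym b r = 1), decide (jacobiSym (a ^ 2 - 4 * b) r = 1))) K ?_
  · have h2 : K.card ≤ (BB a b).card := by
      refine card_le_card_of_injOn (fun s => (s * g) % (8 * nn a b)) ?_ ?_
      · intro s hs
        rw [hK, mem_coe, mem_filter, mem_range] at hs
        obtain ⟨hs1, hs2, hs3, hs4⟩ := hs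
        have hso := odd_of_coprime (dvd_mul_right 8 _) hs2
        have hsz : NeZero s := ⟨by rintro rfl; exact absurd hso (by decide)⟩
        have hsg : Nat.Coprime (s * g) (8 * nn a b) := Nat.Coprime.mul_left hs2 hg2
        have ho1 := odd_of_coprime (dvd_mul_right 8 _) hsg
        have ho2 := odd_of_coprime (dvd_mul_right 8 _) (mod_cop.2 hsg)
        unfold BB
        rw [mem_coe, mem_filter, mem_range, mod_cop]
        refine ⟨Nat.mod_lt _ (by omega), hsg, ?_, ?_⟩
        · rw [jac_mod ho2 ho1 ((Nat.mod_modEq _ _).of_dvd dvd_b), jacobiSym.mul_right, hs3, hg3]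
          norm_num
        · rw [jac_mod ho2 ho1 ((Nat.mod_modEq _ _).of_dvd dvd_c), jacobiSym.mul_right, hs4, hg4]
          norm_num
      · intro s hs s' hs' h
        rw [hK, mem_coe, mem_filter, mem_range] at hs hs'
        have h3 : s * g ≡ s' * g [MOD 8 * nn a b] := h
        have h4 : s ≡ s' [MOD 8 * nn a b] := Nat.ModEq.cancel_right_of_coprime (by
          rw [Nat.gcd_comm]; exact hg2) h3
        exact Nat.ModEq.eq_of_lt_of_lt h4 hs.1 hs'.1
    rw [Fintype.card_prod, Fintype.card_bool] at h1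
    omega
  · intro r s t hr hrc hs hsc hF ht htc hrt
    have hso := odd_of_coprime (dvd_mul_right 8 _) hsc
    have hro := odd_of_coprime (dvd_mul_right 8 _) hrc
    have hto := odd_of_coprime (dvd_mul_right 8 _) htc
    have hsz : NeZero s := ⟨by rintro rfl; exact absurd hso (by decide)⟩
    have hrz : NeZero r := ⟨by rintro rfl; exact absurd hro (by decide)⟩
    have htz : NeZero t := ⟨by rintro rfl; exact absurd hto (by decide)⟩
    have hst : Nat.Coprime (s * t) (8 * nn a b) := Nat.Coprime.mul_left hsc htc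
    have hrt' : Nat.Coprime (r * t) (8 * nn a b) := Nat.Coprime.mul_left hrc htc
    have ho1 := odd_of_coprime (dvd_mul_right 8 _) hst
    have ho2 := odd_of_coprime (dvd_mul_right 8 _) (mod_cop.2 hst)
    have ho3 := odd_of_coprime (dvd_mul_right 8 _) hrt'
    have key : ∀ c : ℤ, c ≠ 0 → 4 * c.natAbs ∣ 8 * nn a b →
        (jacobiSym c r = 1 ↔ jacobiSym c s = 1) →
        jacobiSym c ((s * t) % (8 * nn a b)) = 1 := by
      intro c hc0 hcd hcF
      have hgr : Int.gcd c r = 1 := by
        have h1 : c.natAbs ∣ 8 * nn a b := (dvd_mul_left _ 4).trans hcd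
        have h2 := (Nat.Coprime.coprime_dvd_right h1 hrc).symm
        unfold Int.gcd
        simpa using h2
      have hgs : Int.gcd c s = 1 := by
        have h1 : c.natAbs ∣ 8 * nn a b := (dvd_mul_left _ 4).trans hcd
        have h2 := (Nat.Coprime.coprime_dvd_right h1 hsc).symm
        unfold Int.gcd
        simpa using h2
      have h3 : jacobiSym c r = jacobiSym c s := by
        rcases jacobiSym.eq_one_or_neg_one hgr with h | h
        · rw [h, hcF.1 h]
        · rcases jacobiSym.eq_one_or_neg_one hgs with h' | h'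
          · rw [hcF.2 h', h']
          · rw [h, h']
      have h4 : jacobiSym c (r * t) = 1 := jac_one hc0 ho3 (inv_mod hrt hM hcd)
      rw [jac_mod ho2 ho1 ((Nat.mod_modEq _ _).of_dvd hcd), jacobiSym.mul_right, ← h3,
        ← jacobiSym.mul_right]
      exact h4
    rw [hK, mem_filter, mem_range, mod_cop]
    refine ⟨Nat.mod_lt _ (by omega), hst, key b hb dvd_b ?_, key _ hc dvd_c ?_⟩
    · have := congrArg Prod.fst hF
      simpa using this
    · have := congrArg Prod.snd hF
      simpa using this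

/-- the parameters satisfy the hypotheses -/
theorem okp (hb : b ≠ 0) (hc : a ^ 2 - 4 * b ≠ 0) (hne : (BB a b).Nonempty) (R : Finset ℕ)
    (hR : ∀ q ∈ R, Sil a b q) : Ok (pp a b (∏ q ∈ R, q)) := by
  have hn := nn_pos hb hc
  refine ⟨by show 0 < 8 * nn a b; omega, dvd_mul_right 8 _, ?_, ?_, ?_, ?_, hne, ?_, ?_⟩
  · intro r hr
    have hr : r ∈ AA a b := hr
    unfold AA at hr
    rw [mem_filter, mem_range] at hr
    exact ⟨hr.1, hr.2.1, by have := hr.2.2.1; omega⟩
  · intro r hr
    have hr : r ∈ BB a b := hr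
    unfold BB at hr
    rw [mem_filter, mem_range] at hr
    exact ⟨hr.1, hr.2.1⟩
  · show Disjoint (AA a b) (BB a b)
    rw [Finset.disjoint_left]
    intro r hr1 hr2
    have hr1' := hr1
    unfold AA at hr1'
    rw [mem_filter, mem_range] at hr1'
    have hMz : NeZero (8 * nn a b) := ⟨by omega⟩
    have hu : IsUnit (r : ZMod (8 * nn a b)) := (ZMod.isUnit_iff_coprime r _).2 hr1'.2.1
    obtain ⟨p, hp1, hp2, hp3⟩ := Nat.forall_exists_prime_gt_and_eq_mod hu 0
    have hp4 : p % (8 * nn a b) = r := by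
      have h1 := (ZMod.natCast_eq_natCast_iff p r _).1 hp3
      unfold Nat.ModEq at h1
      rw [h1, Nat.mod_eq_of_lt hr1'.1]
    rw [← hp4] at hr1 hr2
    exact not_both ((split_iff hb hc hp2).1 hr1) ((silent_iff hb hc hp2).1 hr2)
  · show 1 ∈ AA a b
    unfold AA
    rw [mem_filter, mem_range]
    refine ⟨by omega, Nat.coprime_one_left _, rfl, fun l _ => by simp⟩
  · refine ⟨LL a b, ?_, ?_, card_AA hb hc⟩
    · intro l hl
      refine ⟨((mem_LL hb hc).1 hl).1, ((mem_LL hb hc).1 hl).2.1, ?_⟩
      exact (Nat.dvd_of_mem_primeFactors (mem_of_mem_erase hl)).mul_left _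
    · intro r hr
      have hr : r ∈ AA a b := hr
      unfold AA at hr
      rw [mem_filter, mem_range] at hr
      exact hr.2.2
  · obtain ⟨Q, hQ1, hQ2⟩ := corr (a := a) (b := b) hb hc
    refine ⟨Q, fun q hq => (In_iff hb hc).2 (hQ1 q hq), ?_⟩
    intro S hS
    obtain ⟨U, hU, hT⟩ := hQ2 (S.val + R.val) (by
      intro p hp
      rcases Multiset.mem_add.1 hp with hp | hp
      · rcases hS p hp with h | h
        · exact Or.inl ((Sp_iff hb hc).1 h)
        · exact Or.inr ((In_iff hb hc).1 h)
      · exact Or.inr (hR p hp))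
    refine ⟨U, hU, ?_⟩
    show ((∏ p ∈ S, p) * ∏ p ∈ U, p) % (8 * nn a b) ∈ TT a b (∏ q ∈ R, q)
    rw [mem_TT hb hc]
    have e : (S.val + R.val).prod * ∏ p ∈ U, p =
        (∏ p ∈ S, p) * (∏ p ∈ U, p) * ∏ q ∈ R, q := by
      rw [Multiset.prod_add, Finset.prod_val, Finset.prod_val]
      simp only [id]
      ring
    rw [e] at hT
    exact hT

end

end Pool.Agent.H68.T
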