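import Pool.Agent.H68.T.Res
import Pool.Agent.H68.A.Mem
import Pool.Agent.H68.A.Mat

/-!
# The parameters for a curve
-/

set_option autoImplicit false
set_option linter.unusedVariables false

open scoped Classical

namespace Pool.Agent.H68.T

open Finset
open Pool.Agent.H68.G (Par lab Sp In Ok Cl)
open Pool.Agent.H68.A (Spl Sil)

section
variable (a b : ℤ)

/-- the product of the bad primes, with multiplicities -/
def nn : ℕ := (b * (a ^ 2 - 4 * b)).natAbs

/-- the odd bad primes -/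
def LL : Finset ℕ := (nn a b).primeFactors.erase 2

/-- the classes of the split primes -/
noncomputable def AA : Finset ℕ := (range (8 * nn a b)).filter fun r =>
  Nat.Coprime r (8 * nn a b) ∧ r % 8 = 1 ∧ ∀ l ∈ LL a b, jacobiSym (r : ℤ) l = 1

/-- the classes of the silent primes -/
noncomputable def BB : Finset ℕ := (range (8 * nn a b)).filter fun r =>
  Nat.Coprime r (8 * nn a b) ∧ jacobiSym b r = -1 ∧ jacobiSym (a ^ 2 - 4 * b) r = -1

/-- the classes of the twisting numbers -/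
noncomputable def TT (D₀ : ℕ) : Finset ℕ := (range (8 * nn a b)).filter fun r =>
  (r * D₀) % 8 = 1 ∧ ∀ l ∈ LL a b, jacobiSym ((r * D₀ : ℕ) : ℤ) l = 1

/-- the parameters -/
noncomputable def pp (D₀ : ℕ) : Par := ⟨8 * nn a b, AA a b, BB a b, TT a b D₀⟩

end

section
variable {a b : ℤ}

theorem nn_pos (hb : b ≠ 0) (hc : a ^ 2 - 4 * b ≠ 0) : 0 < nn a b :=
  Int.natAbs_pos.2 (mul_ne_zero hb hc)

theorem mem_LL (hb : b ≠ 0) (hc : a ^ 2 - 4 * b ≠ 0) {l : ℕ} :
    l ∈ LL a b ↔ l.Prime ∧ l ≠ 2 ∧ (l : ℤ) ∣ b * (a ^ 2 - 4 * b) := by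
  unfold LL
  rw [mem_erase, Nat.mem_primeFactors, Int.natCast_dvd]
  have := (nn_pos hb hc).ne'
  unfold nn at *
  tauto

theorem dvd_b : 4 * b.natAbs ∣ 8 * nn a b := by
  unfold nn
  rw [Int.natAbs_mul]
  exact ⟨2 * (a ^ 2 - 4 * b).natAbs, by ring⟩

theorem dvd_c : 4 * (a ^ 2 - 4 * b).natAbs ∣ 8 * nn a b := by
  unfold nn
  rw [Int.natAbs_mul]
  exact ⟨2 * b.natAbs, by ring⟩

theorem cop_iff (hb : b ≠ 0) (hc : a ^ 2 - 4 * b ≠ 0) {p : ℕ} (hp : p.Prime) :
    Nat.Coprime p (8 * nn a b) ↔ p ≠ 2 ∧ ¬ (p : ℤ) ∣ b * (a ^ 2 - 4 * b) := by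
  rw [Nat.coprime_mul_iff_right, show 8 = 2 ^ 3 by norm_num, Nat.coprime_pow_right_iff (by norm_num),
    Nat.coprime_primes hp Nat.prime_two, Nat.Prime.coprime_iff_not_dvd hp, Int.natCast_dvd]
  rfl

theorem mod_cop {p m : ℕ} : Nat.Coprime (p % m) m ↔ Nat.Coprime p m := by
  unfold Nat.Coprime
  rw [← Nat.gcd_rec, Nat.gcd_comm]

theorem jac_sq {p : ℕ} (hp : p.Prime) {n : ℤ} (hn : ¬ (p : ℤ) ∣ n) :
    jacobiSym n p = 1 ↔ IsSquare (n : ZMod p) := by
  have := Fact.mk hp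
  rw [← jacobiSym.legendreSym.to_jacobiSym]
  exact legendreSym.eq_one_iff p fun h => hn ((ZMod.intCast_zmod_eq_zero_iff_dvd n p).1 h)

theorem jac_nsq {p : ℕ} (hp : p.Prime) {n : ℤ} :
    jacobiSym n p = -1 ↔ ¬ IsSquare (n : ZMod p) := by
  have := Fact.mk hp
  rw [← jacobiSym.legendreSym.to_jacobiSym]
  exact legendreSym.eq_neg_one_iff p

/-- the split primes by the classes -/
theorem split_iff (hb : b ≠ 0) (hc : a ^ 2 - 4 * b ≠ 0) {p : ℕ} (hp : p.Prime) :
    p % (8 * nn a b) ∈ AA a b ↔ Spl a b p := by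
  have hM : 0 < 8 * nn a b := by have := nn_pos hb hc; omega
  have hpf := Fact.mk hp
  unfold AA
  rw [mem_filter, mem_range, mod_cop, cop_iff hb hc hp, Nat.mod_mod_of_dvd p (dvd_mul_right 8 _)]
  have hjac : ∀ l ∈ LL a b, jacobiSym ((p % (8 * nn a b) : ℕ) : ℤ) l = jacobiSym (p : ℤ) l := by
    intro l hl
    apply jacobiSym.mod_left'
    have h1 : l ∣ 8 * nn a b := by
      have := (Nat.dvd_of_mem_primeFactors (mem_of_mem_erase hl))
      exact this.mul_left _
    have h2 : p % (8 * nn a b) ≡ p [MOD l] := (Nat.mod_modEq p _).of_dvd h1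
    exact (Int.natCast_modEq_iff).2 h2
  constructor
  · rintro ⟨-, ⟨h2, h3⟩, h4, h5⟩
    have hm1 : IsSquare (-1 : ZMod p) := ZMod.exists_sq_eq_neg_one_iff.2 (by omega)
    have h22 : IsSquare (2 : ZMod p) := (ZMod.exists_sq_eq_two_iff h2).2 (Or.inl h4)
    refine ⟨hp, h2, h3, hm1, h22, ?_⟩
    intro l hl hln
    by_cases hl2 : l = 2
    · rw [hl2]
      exact_mod_cast h22
    · have hlf := Fact.mk hl
      have hlL : l ∈ LL a b := (mem_LL hb hc).2 ⟨hl, hl2, hln⟩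
      have h6 := h5 l hlL
      rw [hjac l hlL] at h6
      have hlp : ¬ (l : ℤ) ∣ (p : ℤ) := by
        rw [Int.natCast_dvd_natCast]
        intro h
        rw [(Nat.prime_dvd_prime_iff_eq hl hp).1 h] at hln
        exact h3 hln
      rw [jac_sq hl hlp] at h6
      have h7 := (ZMod.exists_sq_eq_prime_iff_of_mod_four_eq_one (p := p) (q := l)
        (by omega) hl2).2 (by exact_mod_cast h6)
      exact h7
  · rintro ⟨h1, h2, h3, h4, h5, h6⟩
    have h8 := Pool.Agent.H68.A.mod8 h2 h4 h5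
    refine ⟨Nat.mod_lt _ hM, ⟨h2, h3⟩, h8, ?_⟩
    intro l hl
    rw [hjac l hl]
    obtain ⟨hl1, hl2, hln⟩ := (mem_LL hb hc).1 hl
    have hlf := Fact.mk hl1
    have hlp : ¬ (l : ℤ) ∣ (p : ℤ) := by
      rw [Int.natCast_dvd_natCast]
      intro h
      rw [(Nat.prime_dvd_prime_iff_eq hl1 hp).1 h] at hln
      exact h3 hln
    rw [jac_sq hl1 hlp]
    have := Pool.Agent.H68.A.recip (p := p) (l := l) (by omega) hl2 (h6 l hl1 hln)
    exact_mod_cast this

/-- the silent primes by the classes -/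
theorem silent_iff (hb : b ≠ 0) (hc : a ^ 2 - 4 * b ≠ 0) {p : ℕ} (hp : p.Prime) :
    p % (8 * nn a b) ∈ BB a b ↔ Sil a b p := by
  have hM : 0 < 8 * nn a b := by have := nn_pos hb hc; omega
  have hpf := Fact.mk hp
  unfold BB
  rw [mem_filter, mem_range, mod_cop, cop_iff hb hc hp]
  constructor
  · rintro ⟨-, ⟨h2, h3⟩, h4, h5⟩
    have hcop := (cop_iff hb hc hp).2 ⟨h2, h3⟩
    have hpo : Odd p := odd_of_coprime (dvd_mul_right 8 _) hcop
    have hpo' : Odd (p % (8 * nn a b)) := odd_of_coprime (dvd_mul_right 8 _) (mod_cop.2 hcop)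
    have hmm : p % (8 * nn a b) ≡ p [MOD 8 * nn a b] := Nat.mod_modEq p _
    rw [jac_mod hpo' hpo (hmm.of_dvd dvd_b), jac_nsq hp] at h4
    rw [jac_mod hpo' hpo (hmm.of_dvd dvd_c), jac_nsq hp] at h5
    exact ⟨hp, h2, h4, h5⟩
  · rintro ⟨h1, h2, h4, h5⟩
    have h3 : ¬ (p : ℤ) ∣ b * (a ^ 2 - 4 * b) := by
      have hpi : Prime (p : ℤ) := Nat.prime_iff_prime_int.1 hp
      intro h
      rcases hpi.dvd_or_dvd h with h | h
      · rw [(ZMod.intCast_zmod_eq_zero_iff_dvd b p).2 h] at h4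
        exact h4 IsSquare.zero
      · rw [(ZMod.intCast_zmod_eq_zero_iff_dvd _ p).2 h] at h5
        exact h5 IsSquare.zero
    have hcop := (cop_iff hb hc hp).2 ⟨h2, h3⟩
    have hpo : Odd p := odd_of_coprime (dvd_mul_right 8 _) hcop
    have hpo' : Odd (p % (8 * nn a b)) := odd_of_coprime (dvd_mul_right 8 _) (mod_cop.2 hcop)
    have hmm : p % (8 * nn a b) ≡ p [MOD 8 * nn a b] := Nat.mod_modEq p _
    refine ⟨Nat.mod_lt _ hM, ⟨h2, h3⟩, ?_, ?_⟩
    · rw [jac_mod hpo' hpo (hmm.of_dvd dvd_b), jac_nsq hp]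
      exact h4
    · rw [jac_mod hpo' hpo (hmm.of_dvd dvd_c), jac_nsq hp]
      exact h5

theorem not_both {p : ℕ} (h1 : Spl a b p) (h2 : Sil a b p) : False := by
  obtain ⟨h1, h2', h3, h4, h5, h6⟩ := h1
  have := Fact.mk h1
  exact h2.2.2.1 (Pool.Agent.H68.A.sq_of_primes_int b h4
    (fun l hl hlb => h6 l hl (hlb.mul_right _)))

/-- the labels -/
theorem lab_iff' (hb : b ≠ 0) (hc : a ^ 2 - 4 * b ≠ 0) {D₀ p : ℕ} (hp : p.Prime) :
    lab (pp a b D₀) p = 1 ↔ Spl a b p := by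
  rw [Pool.Agent.H68.G.lab_iff]
  exact split_iff hb hc hp

theorem Sp_iff (hb : b ≠ 0) (hc : a ^ 2 - 4 * b ≠ 0) {D₀ p : ℕ} :
    Sp (pp a b D₀) p ↔ Spl a b p := by
  constructor
  · rintro ⟨h1, h2, h3⟩
    exact (lab_iff' hb hc h1).1 h2
  · intro h
    have := Fact.mk h.1
    have h8 := Pool.Agent.H68.A.mod8 h.2.1 h.2.2.2.1 h.2.2.2.2.1
    exact ⟨h.1, (lab_iff' hb hc h.1).2 h, by omega⟩

theorem In_iff (hb : b ≠ 0) (hc : a ^ 2 - 4 * b ≠ 0) {D₀ p : ℕ} :
    In (pp a b D₀) p ↔ Sil a b p := by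
  constructor
  · rintro ⟨h1, h2, h3⟩
    exact (silent_iff hb hc h1).1 h3
  · intro h
    exact ⟨h.1, fun h' => not_both ((lab_iff' hb hc h.1).1 h') h, (silent_iff hb hc h.1).2 h⟩

/-- a number in the trivial class -/
def Tri (a b : ℤ) (n : ℕ) : Prop := n % 8 = 1 ∧ ∀ l ∈ LL a b, jacobiSym (n : ℤ) l = 1

theorem Tri.mul {m n : ℕ} (hm : Tri a b m) (hn : Tri a b n) : Tri a b (m * n) := by
  refine ⟨by rw [Nat.mul_mod, hm.1, hn.1], fun l hl => ?_⟩
  push_cast
  rw [jacobiSym.mul_left, hm.2 l hl, hn.2 l hl, one_mul]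

theorem Tri.one : Tri a b 1 := ⟨rfl, fun l _ => by simp⟩

theorem Tri.sq {n : ℕ} (h : Nat.Coprime n (8 * nn a b)) : Tri a b (n * n) := by
  have ho : Odd n := odd_of_coprime (dvd_mul_right 8 _) h
  refine ⟨?_, fun l hl => ?_⟩
  · have h2 : n % 8 = 1 ∨ n % 8 = 3 ∨ n % 8 = 5 ∨ n % 8 = 7 := by
      have := Nat.odd_iff.1 ho
      omega
    rcases h2 with h | h | h | h <;> rw [Nat.mul_mod, h]
  · have hld : l ∣ 8 * nn a b := (Nat.dvd_of_mem_primeFactors (mem_of_mem_erase hl)).mul_left _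
    have h1 : Int.gcd (n : ℤ) l = 1 := by
      rw [Int.gcd_natCast_natCast]
      exact Nat.Coprime.coprime_dvd_right hld h
    push_cast
    rw [jacobiSym.mul_left]
    rcases jacobiSym.eq_one_or_neg_one h1 with h | h <;> rw [h] <;> norm_num

theorem Tri.congr {m n : ℕ} (h : m ≡ n [MOD 8 * nn a b]) : Tri a b m ↔ Tri a b n := by
  have key : ∀ m n : ℕ, m ≡ n [MOD 8 * nn a b] → Tri a b m → Tri a b n := by
    intro m n h hm
    refine ⟨?_, fun l hl => ?_⟩
    · have h1 : m ≡ n [MOD 8] := h.of_dvd (dvd_mul_right 8 _)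
      have h2 := hm.1
      unfold Nat.ModEq at h1
      omega
    · have hld : l ∣ 8 * nn a b := (Nat.dvd_of_mem_primeFactors (mem_of_mem_erase hl)).mul_left _
      rw [← hm.2 l hl]
      exact jacobiSym.mod_left' ((Int.natCast_modEq_iff).2 (h.symm.of_dvd hld))
  exact ⟨key m n h, key n m h.symm⟩

theorem Tri.cancel {m n : ℕ} (h1 : Tri a b (m * n)) (h2 : Tri a b m) : Tri a b n := by
  refine ⟨?_, fun l hl => ?_⟩
  · have h3 := h1.1
    rw [Nat.mul_mod, h2.1, one_mul, Nat.mod_mod] at h3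
    exact h3
  · have h3 := h1.2 l hl
    push_cast at h3
    rw [jacobiSym.mul_left, h2.2 l hl, one_mul] at h3
    exact h3

theorem Spl.tri (hb : b ≠ 0) (hc : a ^ 2 - 4 * b ≠ 0) {p : ℕ} (h : Spl a b p) : Tri a b p := by
  have h1 := (split_iff hb hc h.1).2 h
  unfold AA at h1
  rw [mem_filter] at h1
  exact (Tri.congr (Nat.mod_modEq p _)).1 ⟨h1.2.2.1, h1.2.2.2⟩

theorem mem_TT (hb : b ≠ 0) (hc : a ^ 2 - 4 * b ≠ 0) {D₀ n : ℕ} :
    n % (8 * nn a b) ∈ TT a b D₀ ↔ Tri a b (n * D₀) := by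
  have hM : 0 < 8 * nn a b := by have := nn_pos hb hc; omega
  have h1 : Tri a b (n % (8 * nn a b) * D₀) ↔ Tri a b (n * D₀) :=
    Tri.congr ((Nat.mod_modEq n _).mul_right _)
  rw [← h1]
  unfold TT
  rw [mem_filter, mem_range]
  exact ⟨fun h => h.2, fun h => ⟨Nat.mod_lt _ hM, h⟩⟩

/-- the correction -/
theorem corr (hb : b ≠ 0) (hc : a ^ 2 - 4 * b ≠ 0) : ∃ Q : Finset ℕ, (∀ q ∈ Q, Sil a b q) ∧
    ∀ S : Multiset ℕ, (∀ p ∈ S, Spl a b p ∨ Sil a b p) →
      ∃ U ⊆ Q, Tri a b (S.prod * ∏ p ∈ U, p) := by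
  have hM : 0 < 8 * nn a b := by have := nn_pos hb hc; omega
  have hex : ∀ r ∈ (BB a b).filter (fun r => ∃ q : ℕ, q % (8 * nn a b) = r ∧ Sil a b q),
      ∃ q : ℕ, q % (8 * nn a b) = r ∧ Sil a b q := fun r hr => (mem_filter.1 hr).2
  choose! g hg1 hg2 using hex
  refine ⟨((BB a b).filter (fun r => ∃ q : ℕ, q % (8 * nn a b) = r ∧ Sil a b q)).image g, ?_, ?_⟩
  · intro q hq
    obtain ⟨r, hr, rfl⟩ := mem_image.1 hq
    exact hg2 r hr
  · intro S
    induction S using Multiset.induction_on with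
    | empty => intro _; exact ⟨∅, empty_subset _, by simpa using Tri.one⟩
    | cons p S ih =>
      intro hS
      obtain ⟨U, hU, hT⟩ := ih (fun q hq => hS q (Multiset.mem_cons_of_mem hq))
      rcases hS p (Multiset.mem_cons_self p S) with hp | hp
      · refine ⟨U, hU, ?_⟩
        rw [Multiset.prod_cons, mul_assoc]
        exact (Spl.tri hb hc hp).mul hT
      · have hr : p % (8 * nn a b) ∈
            (BB a b).filter (fun r => ∃ q : ℕ, q % (8 * nn a b) = r ∧ Sil a b q) :=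
          mem_filter.2 ⟨(silent_iff hb hc hp.1).2 hp, p, rfl, hp⟩
        obtain ⟨q, hq⟩ : ∃ q, q = g (p % (8 * nn a b)) := ⟨_, rfl⟩
        have hq1 : q % (8 * nn a b) = p % (8 * nn a b) := by rw [hq]; exact hg1 _ hr
        have hq2 : Sil a b q := by rw [hq]; exact hg2 _ hr
        have hqQ : q ∈ ((BB a b).filter
            (fun r => ∃ q : ℕ, q % (8 * nn a b) = r ∧ Sil a b q)).image g := by
          rw [hq]; exact mem_image_of_mem _ hr
        have hqc : Nat.Coprime q (8 * nn a b) := by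
          have h1 := (silent_iff hb hc hq2.1).2 hq2
          unfold BB at h1
          rw [mem_filter] at h1
          exact mod_cop.1 h1.2.1
        have hqp : q ≡ p [MOD 8 * nn a b] := hq1
        by_cases hqU : q ∈ U
        · refine ⟨U.erase q, (erase_subset _ _).trans hU, ?_⟩
          have e : (∏ p ∈ U, p) = q * ∏ p ∈ U.erase q, p := (mul_prod_erase U (fun p => p) hqU).symm
          rw [e] at hT
          rw [Multiset.prod_cons]
          have h1 : S.prod * (q * ∏ p ∈ U.erase q, p) ≡ p * S.prod * ∏ p ∈ U.erase q, p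
              [MOD 8 * nn a b] := by
            have e1 : S.prod * (q * ∏ p ∈ U.erase q, p) = q * (S.prod * ∏ p ∈ U.erase q, p) := by
              ring
            have e2 : p * S.prod * ∏ p ∈ U.erase q, p = p * (S.prod * ∏ p ∈ U.erase q, p) := by
              ring
            rw [e1, e2]
            exact hqp.mul_right _
          exact (Tri.congr h1).1 hT
        · refine ⟨insert q U, insert_subset hqQ hU, ?_⟩
          rw [prod_insert hqU, Multiset.prod_cons]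
          have h1 : (q * q) * (S.prod * ∏ p ∈ U, p) ≡ p * S.prod * (q * ∏ p ∈ U, p)
              [MOD 8 * nn a b] := by
            have e1 : (q * q) * (S.prod * ∏ p ∈ U, p) = q * (S.prod * (q * ∏ p ∈ U, p)) := by
              ring
            have e2 : p * S.prod * (q * ∏ p ∈ U, p) = p * (S.prod * (q * ∏ p ∈ U, p)) := by
              ring
            rw [e1, e2]
            exact hqp.mul_right _
          exact (Tri.congr h1).1 ((Tri.sq hqc).mul hT)

end

end Pool.Agent.H68.T
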