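import Mathlib
import Pool.Agent.H68.G.HAL

/-!
# Residues with given Jacobi symbols
-/

set_option autoImplicit false
set_option linter.unusedVariables false

namespace Pool.Agent.H68.T

open Pool.Agent.H68.G.HAL (exR leg)

/-- the Jacobi symbol depends on the class only -/
theorem jac_mod {b : ℤ} {k k' : ℕ} (hk : Odd k) (hk' : Odd k') (h : k ≡ k' [MOD 4 * b.natAbs]) :
    jacobiSym b k = jacobiSym b k' := by
  rw [jacobiSym.mod_right b hk, jacobiSym.mod_right b hk', h]

/-- the Jacobi symbol at a number congruent to one -/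
theorem jac_one {b : ℤ} (hb : b ≠ 0) {k : ℕ} (hk : Odd k) (h : k ≡ 1 [MOD 4 * b.natAbs]) :
    jacobiSym b k = 1 := by
  rw [jac_mod hk odd_one h, jacobiSym.one_right]

theorem odd_of_coprime {k m : ℕ} (h8 : 8 ∣ m) (h : Nat.Coprime k m) : Odd k := by
  rw [← Nat.not_even_iff_odd, even_iff_two_dvd]
  intro h2
  have h3 : 2 ∣ m := (by norm_num : 2 ∣ 8).trans h8
  have h4 := Nat.dvd_gcd h2 h3
  unfold Nat.Coprime at h
  rw [h] at h4
  omega

/-- an integer which is not a square has a Jacobi symbol `-1` -/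
theorem exists_neg {b : ℤ} (hb0 : b ≠ 0) (hb : ¬ IsSquare b) {m : ℕ} (hm : 0 < m) (h8 : 8 ∣ m)
    (hbm : 4 * b.natAbs ∣ m) : ∃ k : ℕ, Nat.Coprime k m ∧ jacobiSym b k = -1 := by
  -- the squarefree part
  obtain ⟨s', c, hc0, hs0, hsc, hsq⟩ := Nat.sq_mul_squarefree_of_pos (Int.natAbs_pos.2 hb0)
  obtain ⟨s, hs, hsb⟩ : ∃ s : ℤ, s.natAbs = s' ∧ b = s * (c : ℤ) ^ 2 := by
    rcases Int.natAbs_eq b with h | h
    · refine ⟨(s' : ℤ), by simp, ?_⟩
      rw [h, ← hsc]
      push_cast
      ring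
    · refine ⟨-(s' : ℤ), by simp, ?_⟩
      rw [h, ← hsc]
      push_cast
      ring
  have hs1 : s ≠ 1 := by
    rintro rfl
    apply hb
    exact ⟨(c : ℤ), by rw [hsb]; ring⟩
  have hsd : s.natAbs ∣ b.natAbs := by
    rw [hs, ← hsc]
    exact dvd_mul_left _ _
  have hs00 : s ≠ 0 := by
    rintro rfl
    apply hb0
    rw [hsb]
    ring
  have hcb : c ∣ b.natAbs := by
    rw [← hsc, pow_two, mul_assoc]
    exact dvd_mul_right _ _
  have hcm : c ∣ m := (hcb.trans (dvd_mul_left _ 4)).trans hbm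
  have hsm : 4 * s.natAbs ∣ m := (Nat.mul_dvd_mul_left 4 hsd).trans hbm
  -- reduction to the squarefree part
  suffices H : ∃ k : ℕ, Nat.Coprime k m ∧ jacobiSym s k = -1 by
    obtain ⟨k, k1, k2⟩ := H
    refine ⟨k, k1, ?_⟩
    have hck : Int.gcd (c : ℤ) k = 1 := by
      rw [Int.gcd_natCast_natCast]
      exact (Nat.Coprime.coprime_dvd_right hcm k1).symm
    rw [hsb, jacobiSym.mul_left, jacobiSym.pow_left, k2]
    rcases jacobiSym.eq_one_or_neg_one hck with h | h <;> rw [h] <;> norm_num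
  have h82 : 8 ∣ 2 ^ m.factorization 2 := by
    have h1 : (2 : ℕ) ^ 3 ∣ m := by norm_num; exact h8
    have h2 := (Nat.prime_two.pow_dvd_iff_le_factorization hm.ne').1 h1
    have h3 := pow_dvd_pow 2 h2
    norm_num at h3 ⊢
    exact h3
  by_cases hex : ∃ l : ℕ, l.Prime ∧ l ≠ 2 ∧ l ∣ s.natAbs
  · obtain ⟨l, hl, hl2, hls⟩ := hex
    have hlf : Fact l.Prime := ⟨hl⟩
    obtain ⟨t, ht⟩ : (l : ℤ) ∣ s := Int.natCast_dvd.2 hls
    have hlt : ¬ l ∣ t.natAbs := by
      intro h
      obtain ⟨u, hu⟩ := h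
      have h1 : l * l ∣ s.natAbs := by
        rw [ht, Int.natAbs_mul, Int.natAbs_natCast, hu]
        exact ⟨u, by ring⟩
      rw [hs] at h1
      exact hl.not_isUnit (hsq l h1)
    have ht0 : t ≠ 0 := by
      rintro rfl
      exact hs00 (by rw [ht]; ring)
    obtain ⟨g, hg⟩ := FiniteField.exists_nonsquare (F := ZMod l)
      (by rw [ZMod.ringChar_zmod_n]; exact hl2)
    have hgr : ¬ l ∣ g.val := by
      intro h
      rw [← ZMod.natCast_eq_zero_iff, ZMod.natCast_zmod_val] at h
      exact hg (h ▸ IsSquare.zero)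
    obtain ⟨k, k1, k2, k3⟩ := exR m hm l hl g.val hgr
    have hko := odd_of_coprime h8 k1
    have hlm : l ∣ m := (hls.trans (dvd_mul_left _ 4)).trans hsm
    have hjd : l ∣ l ^ m.factorization l := by
      apply dvd_pow_self
      have := (hl.dvd_iff_one_le_factorization hm.ne').1 hlm
      omega
    -- the complement
    have e : l ^ m.factorization l * (m / l ^ m.factorization l) = m :=
      Nat.ordProj_mul_ordCompl_eq_self m l
    have hdvd : ∀ d : ℕ, d ∣ m → Nat.Coprime d l → d ∣ m / l ^ m.factorization l := by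
      intro d hd hdl
      rw [← e] at hd
      exact (Nat.Coprime.pow_right _ hdl).dvd_of_dvd_mul_left hd
    have h4t : 4 * t.natAbs ∣ m / l ^ m.factorization l := by
      apply hdvd
      · refine dvd_trans ?_ hsm
        apply Nat.mul_dvd_mul_left
        rw [ht, Int.natAbs_mul]
        exact dvd_mul_left _ _
      · apply Nat.Coprime.mul_left
        · rw [show 4 = 2 ^ 2 by norm_num]
          exact Nat.Coprime.pow_left _ ((Nat.coprime_primes Nat.prime_two hl).2 hl2.symm)
        · rw [Nat.coprime_comm, Nat.Prime.coprime_iff_not_dvd hl]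
          exact hlt
    have hk4 : k % 4 = 1 := by
      have h1 : k ≡ 1 [MOD 4] := k3.of_dvd ((dvd_mul_right 4 _).trans h4t)
      exact h1
    refine ⟨k, k1, ?_⟩
    rw [ht, jacobiSym.mul_left, jac_one ht0 hko (k3.of_dvd h4t), mul_one]
    have hlo : Odd l := hl.odd_of_ne_two hl2
    rw [← jacobiSym.quadratic_reciprocity_one_mod_four hk4 hlo]
    have hkv : ((k : ℕ) : ZMod l) = g := by
      rw [(ZMod.natCast_eq_natCast_iff k g.val l).2 (k2.of_dvd hjd), ZMod.natCast_zmod_val]
    rw [leg, legendreSym.eq_neg_one_iff, Int.cast_natCast, hkv]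
    exact hg
  · -- only the prime two
    have hs2 : s.natAbs = 1 ∨ s.natAbs = 2 := by
      by_cases h1 : s.natAbs = 1
      · exact Or.inl h1
      · right
        obtain ⟨l, hl, hls⟩ := Nat.exists_prime_and_dvd h1
        have hl2 : l = 2 := by
          by_contra h
          exact hex ⟨l, hl, h, hls⟩
        subst hl2
        obtain ⟨t, ht⟩ := hls
        by_cases ht1 : t = 1
        · rw [ht, ht1]
        · exfalso
          obtain ⟨l', hl', hlt'⟩ := Nat.exists_prime_and_dvd ht1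
          have hl'2 : l' = 2 := by
            by_contra h
            exact hex ⟨l', hl', h, by rw [ht]; exact hlt'.mul_left _⟩
          subst hl'2
          obtain ⟨u, hu⟩ := hlt'
          have h3 : 2 * 2 ∣ s' := by
            rw [← hs, ht, hu]
            exact ⟨u, by ring⟩
          exact hl'.not_isUnit (hsq 2 h3)
    have key : ∀ r : ℕ, ¬ 2 ∣ r → ∃ k : ℕ, Nat.Coprime k m ∧ Odd k ∧ k ≡ r [MOD 8] := by
      intro r hr
      obtain ⟨k, k1, k2, k3⟩ := exR m hm 2 Nat.prime_two r hr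
      exact ⟨k, k1, odd_of_coprime h8 k1, k2.of_dvd h82⟩
    have hmod : ∀ k k' : ℕ, Odd k → Odd k' → k ≡ k' [MOD 8] → jacobiSym s k = jacobiSym s k' := by
      intro k k' h1 h2 h3
      apply jac_mod h1 h2 (h3.of_dvd ?_)
      rcases hs2 with h | h <;> rw [h] <;> norm_num
    have h3o : Odd 3 := by decide
    have h5o : Odd 5 := by decide
    rcases hs2 with h | h
    · -- s = -1
      have hsv : s = -1 := by
        rcases Int.natAbs_eq s with h' | h' <;> rw [h] at h'
        · exact absurd h' hs1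
        · exact h'
      obtain ⟨k, k1, k2, k3⟩ := key 3 (by norm_num)
      refine ⟨k, k1, ?_⟩
      rw [hmod k 3 k2 h3o k3, hsv]
      norm_num
    · have hsv : s = 2 ∨ s = -2 := by
        rcases Int.natAbs_eq s with h' | h' <;> rw [h] at h'
        · exact Or.inl h'
        · exact Or.inr h'
      obtain ⟨k, k1, k2, k3⟩ := key 5 (by norm_num)
      refine ⟨k, k1, ?_⟩
      rw [hmod k 5 k2 h5o k3]
      rcases hsv with hsv | hsv <;> rw [hsv] <;> norm_num

/-- two integers which are not squares have a common Jacobi symbol `-1` -/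
theorem exists_neg2 {b c : ℤ} (hb0 : b ≠ 0) (hb : ¬ IsSquare b) (hc0 : c ≠ 0) (hc : ¬ IsSquare c)
    {m : ℕ} (hm : 0 < m) (h8 : 8 ∣ m) (hbm : 4 * b.natAbs ∣ m) (hcm : 4 * c.natAbs ∣ m) :
    ∃ k : ℕ, Nat.Coprime k m ∧ jacobiSym b k = -1 ∧ jacobiSym c k = -1 := by
  obtain ⟨k, k1, k2⟩ := exists_neg hb0 hb hm h8 hbm
  obtain ⟨l, l1, l2⟩ := exists_neg hc0 hc hm h8 hcm
  have key : ∀ (b : ℤ) (k : ℕ), 4 * b.natAbs ∣ m → Nat.Coprime k m →
      jacobiSym b k = 1 ∨ jacobiSym b k = -1 := by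
    intro b k hb hk
    apply jacobiSym.eq_one_or_neg_one
    have h1 : b.natAbs ∣ m := (dvd_mul_left _ 4).trans hb
    have h2 := (Nat.Coprime.coprime_dvd_right h1 hk).symm
    unfold Int.gcd
    simpa using h2
  rcases key c k hcm k1 with h | h
  · rcases key b l hbm l1 with h' | h'
    · refine ⟨k * l, Nat.Coprime.mul_left k1 l1, ?_, ?_⟩
      · have : NeZero k := ⟨by rintro rfl; rw [Nat.coprime_zero_left] at k1; omega⟩
        have : NeZero l := ⟨by rintro rfl; rw [Nat.coprime_zero_left] at l1; omega⟩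
        rw [jacobiSym.mul_right, k2, h']; norm_num
      · have : NeZero k := ⟨by rintro rfl; rw [Nat.coprime_zero_left] at k1; omega⟩
        have : NeZero l := ⟨by rintro rfl; rw [Nat.coprime_zero_left] at l1; omega⟩
        rw [jacobiSym.mul_right, l2, h]; norm_num
    · exact ⟨l, l1, h', l2⟩
  · exact ⟨k, k1, k2, h⟩

end Pool.Agent.H68.T
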